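import Pool.Agent.helper34.MO.SpecC

set_option autoImplicit false

open Complex Finset

namespace Pool.Agent.MO

lemma GE1_pos (t : ℝ) (ht : 0 < t) : ∀ τ : Tr, PosW (uni t τ)
  | .e => trivial
  | .nd l r => ⟨ht, GE1_pos t ht l, GE1_pos t ht r⟩

lemma GE1_dom (t : ℝ) (ht : 1 ≤ t) : ∀ τ : Tr, Dom (uni 1 τ) (uni t τ)
  | .e => trivial
  | .nd l r => ⟨ht, GE1_dom t ht l, GE1_dom t ht r⟩

lemma GE1_root (τ : Tr) (x : ℝ) (h : rootL (uni 1 τ) = some x) : x = 1 := by
  cases τ with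
  | e => simp [uni, rootL] at h
  | nd l r =>
    simp only [uni, rootL, Option.some.injEq] at h
    exact h.symm

lemma GE1_req : ∀ (τ : Tr) (la lb : Bool), ReqL la lb (uni 1 τ)
  | .e, _, _ => by
    unfold uni ReqL
    trivial
  | .nd l r, la, lb => by
    unfold uni ReqL
    refine ⟨one_pos, le_refl _, GE1_req l la true, GE1_req r true lb, ?_⟩
    intro _ _ x y hx hy
    exact ⟨GE1_root l x hx, GE1_root r y hy⟩

theorem GE1 (hRPF : RPF_stmt) : GE1_stmt := by
  intro τ t ht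
  have ht0 : 0 < t := by linarith
  refine hRPF (uni 1 τ) (uni t τ) (some t) (some t) (GE1_pos t ht0 τ) (GE1_dom t ht τ) (GE1_req τ _ _) ?_ ?_
  · intro x hx
    rw [Option.some.injEq] at hx
    rw [← hx]
    exact ht0
  · intro x hx
    rw [Option.some.injEq] at hx
    rw [← hx]
    exact ht0

end Pool.Agent.MO
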