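import Pool.Agent.helper34.MO.SpecD

set_option autoImplicit false

open Finset

namespace Pool.Agent.MO

lemma INTF_cont (l : ℝ) : Continuous fun t : ℝ => t * Real.arctan (l / t) := by
  rw [continuous_iff_continuousAt]
  intro t
  by_cases ht : t = 0
  · subst ht
    unfold ContinuousAt
    simp only [zero_mul]
    apply squeeze_zero_norm' (a := fun t : ℝ => |t| * (Real.pi / 2))
    · filter_upwards with x
      rw [Real.norm_eq_abs, abs_mul]
      apply mul_le_mul_of_nonneg_left _ (abs_nonneg x)
      rw [abs_le]
      exact ⟨(Real.neg_pi_div_two_lt_arctan _).le, (Real.arctan_lt_pi_div_two _).le⟩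
    · have h : Continuous fun t : ℝ => |t| * (Real.pi / 2) := by fun_prop
      have h2 := h.tendsto 0
      simpa using h2
  · apply ContinuousAt.mul continuousAt_id
    apply Real.continuous_arctan.continuousAt.comp
    exact continuousAt_const.div continuousAt_id ht

lemma INTF_int (l R : ℝ) (hl : l ≠ 0) (hR : 0 ≤ R) :
    ∫ t in (0 : ℝ)..R, t * Real.arctan (l / t) =
      1 / 2 * (R * (R * Real.arctan (l / R)) + l * R - l ^ 2 * Real.arctan (R / l)) := by
  have h := intervalIntegral.integral_eq_sub_of_hasDerivAt_of_le (a := 0) (b := R)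
    (f := fun t : ℝ => 1 / 2 * (t * (t * Real.arctan (l / t)) + l * t - l ^ 2 * Real.arctan (t / l)))
    (f' := fun t : ℝ => t * Real.arctan (l / t)) hR ?_ ?_ ((INTF_cont l).intervalIntegrable _ _)
  · rw [h]
    simp
  · apply Continuous.continuousOn
    have h1 := INTF_cont l
    have h2 : Continuous fun t : ℝ => Real.arctan (t / l) := Real.continuous_arctan.comp (continuous_id.div_const l)
    exact continuous_const.mul (((continuous_id.mul h1).add (continuous_const.mul continuous_id)).sub
      (continuous_const.mul h2))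
  · intro t ht
    have ht0 : t ≠ 0 := ht.1.ne'
    have hd1 : HasDerivAt (fun t : ℝ => l / t) (-l / t ^ 2) t := by
      have h0 : HasDerivAt (fun t : ℝ => l / t) ((0 * t - l * 1) / t ^ 2) t :=
        (hasDerivAt_const t l).div (hasDerivAt_id t) ht0
      refine h0.congr_deriv ?_
      ring
    have hd2 := hd1.arctan
    have hd3 : HasDerivAt (fun t : ℝ => t * (t * Real.arctan (l / t)))
        (1 * (t * Real.arctan (l / t)) + t * (1 * Real.arctan (l / t) + t * (1 / (1 + (l / t) ^ 2) * (-l / t ^ 2)))) t :=
      (hasDerivAt_id t).mul ((hasDerivAt_id t).mul hd2)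
    have hd4 : HasDerivAt (fun t : ℝ => t / l) (1 / l) t := (hasDerivAt_id t).div_const l
    have hd5 := (hd4.arctan).const_mul (l ^ 2)
    have hd6 := (hasDerivAt_id t).const_mul l
    have hd7 := ((hd3.add hd6).sub hd5).const_mul (1 / 2)
    refine (HasDerivAt.congr_deriv (f' := _) hd7 ?_)
    have hp : t ^ 2 + l ^ 2 ≠ 0 := by positivity
    have hp2 : l ^ 2 + t ^ 2 ≠ 0 := by positivity
    have e1 : 1 / (1 + (l / t) ^ 2) * (-l / t ^ 2) = -l / (t ^ 2 + l ^ 2) := by
      field_simp
    have e2 : 1 / (1 + (t / l) ^ 2) * (1 / l) = l / (t ^ 2 + l ^ 2) := by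
      field_simp
      ring
    rw [e1, e2]
    field_simp
    ring

lemma INTF_arctan_nonneg (x : ℝ) (hx : 0 ≤ x) : Real.arctan x ≤ x ∧ x - x ^ 3 ≤ Real.arctan x := by
  constructor
  · have h : MonotoneOn (fun y : ℝ => y - Real.arctan y) (Set.Ici 0) := by
      apply monotoneOn_of_deriv_nonneg (convex_Ici 0)
      · exact (continuous_id.sub Real.continuous_arctan).continuousOn
      · intro y _
        exact (((hasDerivAt_id y).sub (Real.hasDerivAt_arctan y)).differentiableAt).differentiableWithinAt
      · intro y _
        have hdd : HasDerivAt (fun y : ℝ => y - Real.arctan y) (1 - 1 / (1 + y ^ 2)) y :=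
          (hasDerivAt_id y).sub (Real.hasDerivAt_arctan y)
        rw [hdd.deriv]
        have h1 : 1 / (1 + y ^ 2) ≤ 1 := by
          rw [div_le_one (by positivity)]
          nlinarith [sq_nonneg y]
        linarith
    have h2 := h (Set.mem_Ici.mpr le_rfl) (Set.mem_Ici.mpr hx) hx
    simp only [Real.arctan_zero, sub_zero] at h2
    linarith
  · have h : MonotoneOn (fun y : ℝ => Real.arctan y - (y - y ^ 3)) (Set.Ici 0) := by
      have hd : ∀ y : ℝ, HasDerivAt (fun y : ℝ => Real.arctan y - (y - y ^ 3)) (1 / (1 + y ^ 2) - (1 - 3 * y ^ 2)) y := by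
        intro y
        have h1 : HasDerivAt (fun y : ℝ => Real.arctan y - (y - y ^ 3))
          (1 / (1 + y ^ 2) - (1 - ((3 : ℕ) : ℝ) * y ^ (3 - 1))) y :=
          (Real.hasDerivAt_arctan y).sub ((hasDerivAt_id y).sub (hasDerivAt_pow 3 y))
        refine h1.congr_deriv ?_
        norm_num
      apply monotoneOn_of_deriv_nonneg (convex_Ici 0)
      · intro y _
        exact (hd y).continuousAt.continuousWithinAt
      · intro y _
        exact (hd y).differentiableAt.differentiableWithinAt
      · intro y _
        rw [(hd y).deriv]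
        have hp : 0 < 1 + y ^ 2 := by positivity
        have h1 : 1 - y ^ 2 ≤ 1 / (1 + y ^ 2) := by
          rw [le_div_iff₀ hp]
          nlinarith [sq_nonneg y, sq_nonneg (y ^ 2)]
        nlinarith [sq_nonneg y]
    have h2 := h (Set.mem_Ici.mpr le_rfl) (Set.mem_Ici.mpr hx) hx
    simp only [Real.arctan_zero] at h2
    norm_num at h2
    linarith

lemma INTF_arctan (x : ℝ) : |x - Real.arctan x| ≤ |x| ^ 3 := by
  rcases le_total 0 x with h | h
  · have h1 := INTF_arctan_nonneg x h
    rw [abs_of_nonneg h, abs_of_nonneg (by linarith)]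
    linarith
  · have h1 := INTF_arctan_nonneg (-x) (by linarith)
    rw [Real.arctan_neg] at h1
    rw [abs_of_nonpos h, abs_of_nonpos (by linarith)]
    linarith

lemma INTF_one (l : ℝ) : Filter.Tendsto (fun R : ℝ => 4 / Real.pi * (l * R - ∫ t in (0 : ℝ)..R, t * Real.arctan (l / t)))
    Filter.atTop (nhds (l * |l|)) := by
  by_cases hl : l = 0
  · subst hl
    simp
  · have h1 : Filter.Tendsto (fun R : ℝ => R ^ 2 * (l / R - Real.arctan (l / R))) Filter.atTop (nhds 0) := by
      apply squeeze_zero_norm' (a := fun R : ℝ => |l| ^ 3 / R)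
      · filter_upwards [Filter.eventually_gt_atTop (0 : ℝ)] with R hR
        rw [Real.norm_eq_abs, abs_mul, abs_of_nonneg (sq_nonneg R)]
        have h2 := INTF_arctan (l / R)
        rw [abs_div, abs_of_pos hR, div_pow] at h2
        calc R ^ 2 * |l / R - Real.arctan (l / R)| ≤ R ^ 2 * (|l| ^ 3 / R ^ 3) :=
              mul_le_mul_of_nonneg_left h2 (sq_nonneg R)
          _ = |l| ^ 3 / R := by
              field_simp
      · exact tendsto_const_nhds.div_atTop Filter.tendsto_id
    have h2 : Filter.Tendsto (fun R : ℝ => l ^ 2 * Real.arctan (R / l)) Filter.atTop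
        (nhds (Real.pi / 2 * (l * |l|))) := by
      rcases lt_or_gt_of_ne hl with hneg | hpos
      · have h3 : Filter.Tendsto (fun R : ℝ => R / l) Filter.atTop Filter.atBot := by
          have h4 := (Filter.tendsto_id (α := ℝ) (x := Filter.atTop)).atTop_mul_const_of_neg (inv_lt_zero.mpr hneg)
          refine h4.congr (fun R => ?_)
          simp [div_eq_mul_inv]
        have h4 := (Real.tendsto_arctan_atBot.comp h3).mono_right nhdsWithin_le_nhds
        have h5 := h4.const_mul (l ^ 2)
        have e : l ^ 2 * (-(Real.pi / 2)) = Real.pi / 2 * (l * |l|) := by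
          rw [abs_of_neg hneg]
          ring
        rw [e] at h5
        exact h5
      · have h3 : Filter.Tendsto (fun R : ℝ => R / l) Filter.atTop Filter.atTop :=
          Filter.Tendsto.atTop_div_const hpos Filter.tendsto_id
        have h4 := (Real.tendsto_arctan_atTop.comp h3).mono_right nhdsWithin_le_nhds
        have h5 := h4.const_mul (l ^ 2)
        have e : l ^ 2 * (Real.pi / 2) = Real.pi / 2 * (l * |l|) := by
          rw [abs_of_pos hpos]
          ring
        rw [e] at h5
        exact h5
    have h3 := ((h1.add h2).const_mul (1 / 2)).const_mul (4 / Real.pi)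
    have e : 4 / Real.pi * (1 / 2 * (0 + Real.pi / 2 * (l * |l|))) = l * |l| := by
      have := Real.pi_ne_zero
      field_simp
      ring
    rw [e] at h3
    refine h3.congr' ?_
    filter_upwards [Filter.eventually_gt_atTop (0 : ℝ)] with R hR
    rw [INTF_int l R hl hR.le]
    have hR0 : R ≠ 0 := hR.ne'
    have e2 : R ^ 2 * (l / R - Real.arctan (l / R)) = l * R - R * (R * Real.arctan (l / R)) := by
      field_simp
    rw [e2]
    ring

theorem INTF : INTF_stmt := by
  intro L hL
  have hii : ∀ (l R : ℝ), IntervalIntegrable (fun t : ℝ => t * Real.arctan (l / t)) MeasureTheory.volume 0 R :=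
    fun l R => (INTF_cont l).intervalIntegrable _ _
  have key : ∀ M : Multiset ℝ,
      Filter.Tendsto (fun R : ℝ => 4 / Real.pi * (M.sum * R + ∫ t in (0 : ℝ)..R, t * Phi M t))
        Filter.atTop (nhds (DD M)) := by
    intro M
    induction M using Multiset.induction_on with
    | empty => simp [Phi, DD]
    | cons a M ih =>
      have h1 := (INTF_one a).add ih
      have e1 : DD (a ::ₘ M) = a * |a| + DD M := by
        simp [DD]
      rw [e1]
      refine h1.congr (fun R => ?_)
      have e2 : (fun t : ℝ => t * Phi (a ::ₘ M) t) = fun t : ℝ => t * Phi M t - t * Real.arctan (a / t) := by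
        funext t
        simp only [Phi, Multiset.map_cons, Multiset.sum_cons]
        ring
      have hM : IntervalIntegrable (fun t : ℝ => t * Phi M t) MeasureTheory.volume 0 R := by
        apply Continuous.intervalIntegrable
        have : (fun t : ℝ => t * Phi M t) = fun t : ℝ => -(M.map fun x => t * Real.arctan (x / t)).sum := by
          funext t
          simp only [Phi]
          rw [mul_neg, ← Multiset.sum_map_mul_left]
        rw [this]
        apply Continuous.neg
        apply continuous_multiset_sum
        intro x _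
        exact INTF_cont x
      rw [e2, intervalIntegral.integral_sub hM (hii a R), Multiset.sum_cons]
      ring
  have h := key L
  rw [hL] at h
  simpa using h

end Pool.Agent.MO
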