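import Pool.Agent.helper34.MO.SpecB

set_option autoImplicit false

open Complex Finset

namespace Pool.Agent.MO

lemma N4_acc0 (A B m : ℂ) (p q : ℝ) (h : Acc2 A B m) (hp : 0 ≤ p) (hq : 0 ≤ q) : Acc2 (A + p) (B + q) m := by
  obtain ⟨h1, h2, h3⟩ := h
  refine ⟨?_, ?_, ?_⟩
  · simp only [Complex.add_re, Complex.ofReal_re]
    linarith
  · simp only [Complex.add_re, Complex.ofReal_re]
    linarith
  · simp only [Complex.add_re, Complex.ofReal_re]
    have h4 := mul_nonneg hp h2.le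
    have h5 := mul_nonneg h1.le hq
    have h6 := mul_nonneg hp hq
    nlinarith

lemma N4_accG (hACG : ACG_stmt) (A B m al be mu : ℂ) (T W : ℝ) (bc bw cw : ℂ) (h : Acc2 A B m)
    (hL : Psd2 al be mu) (hT : 0 < T) (hW : 0 < W) (hbc : bc.re = 0) (hbw : bw.re = 0) (hcw : cw.re = 0) :
    AccS (G5 (A + al) B (T + be) 1 W m (mu - I) bc 0 0 bw cw) {0, 1, 2, 3, 4} := by
  have h1 := hACG A B m al be mu T 1 W (-I) bc 0 0 bw cw h hL hT one_pos hW (by simp) hbc (by simp) (by simp) hbw hcw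
  rw [← sub_eq_add_neg, Complex.ofReal_one] at h1
  exact h1

theorem N4 (hPHS : PHS_stmt) (hPHE : PHE_stmt) (hEV : EV_stmt) (hA2P : A2P_stmt) (hACG : ACG_stmt) : N4_stmt := by
  intro s L p q T hs hL hp hq hT
  have hs' := N4_acc0 s.A s.B s.m p q hs hp hq
  obtain ⟨-, -, -, -, hsub⟩ := hPHE
  -- three index facts
  have key3 : ∀ bc : ℂ, bc.re = 0 →
      Acc2 ((T : ℂ) + L.be - (L.mu - I) ^ 2 / (s.A + p + L.al)) (s.B + q - s.m ^ 2 / (s.A + p + L.al))
        (bc - s.m * (L.mu - I) / (s.A + p + L.al)) ∧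
      ph3 (s.B + q) (s.A + p + L.al) (T + L.be) s.m bc (L.mu - I) =
        ph3 (s.A + p + L.al) (T + L.be) (s.B + q) (L.mu - I) s.m bc := by
    intro bc hbc
    have hacc := N4_accG hACG (s.A + p) (s.B + q) s.m L.al L.be L.mu T 1 bc 0 0 hs' hL hT one_pos hbc (by simp)
      (by simp)
    have h012 : AccS (G5 (s.A + p + L.al) (s.B + q) (T + L.be) 1 ((1 : ℝ) : ℂ) s.m (L.mu - I) bc 0 0 0 0) {0, 1, 2} :=
      hsub _ _ _ (by decide) hacc
    have hset : ({0, 1, 2} : Finset ℕ) = {1, 0, 2} := by decide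
    have hset2 : ({0, 1, 2} : Finset ℕ) = {0, 2, 1} := by decide
    have ha := h012
    have hb := h012
    rw [hset] at ha
    rw [hset2] at hb
    have e1 := hEV.2 _ 1 0 2 (by decide) (by decide) (by decide) rfl rfl rfl ha
    have e2 := hEV.2 _ 0 2 1 (by decide) (by decide) (by decide) rfl rfl rfl hb
    rw [← hset] at e1
    rw [← hset2] at e2
    constructor
    · have h3 := (hPHS _ {2, 1} 0 (by decide) hb).2.1
      have h4 := (hA2P.2 _ 2 1 (by decide) (by simp only [sch, G5]; ring)).mp h3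
      simp only [sch, G5] at h4
      have e3 : (T : ℂ) + L.be - (L.mu - I) * (L.mu - I) / (s.A + p + L.al) =
        (T : ℂ) + L.be - (L.mu - I) ^ 2 / (s.A + p + L.al) := by ring
      have e4 : s.B + q - s.m * s.m / (s.A + p + L.al) = s.B + q - s.m ^ 2 / (s.A + p + L.al) := by ring
      have e5 : bc - (L.mu - I) * s.m / (s.A + p + L.al) = bc - s.m * (L.mu - I) / (s.A + p + L.al) := by ring
      rw [e3, e4, e5] at h4
      exact h4
    · rw [e1] at e2
      exact e2
  obtain ⟨k1, k2⟩ := key3 (-I) (by simp)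
  obtain ⟨k3, k4⟩ := key3 0 (by simp)
  refine ⟨k1, ?_, ?_, ?_, ?_⟩
  · simp only [s2]
    have e : -I - s.m * (L.mu - I) / (s.A + p + L.al) + I = 0 - s.m * (L.mu - I) / (s.A + p + L.al) := by ring
    rw [e]
    exact k3
  · simp only [s1, s2]
    simp only [ph3] at k2
    have e1 : s.A + p + L.al - s.m ^ 2 / (s.B + q) = s.A + p - s.m ^ 2 / (s.B + q) + L.al := by ring
    have e2 : (T : ℂ) + L.be - (-I) ^ 2 / (s.B + q) = T + 1 / (s.B + q) + L.be := by
      rw [neg_sq, Complex.I_sq]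
      ring
    have e3 : L.mu - I - s.m * -I / (s.B + q) = -I + I * s.m / (s.B + q) + L.mu := by ring
    have e4 : -I - (L.mu - I) * s.m / (s.A + p + L.al) = -I - s.m * (L.mu - I) / (s.A + p + L.al) := by ring
    rw [e1, e2, e3, e4] at k2
    linarith
  · simp only [s1e, s2]
    simp only [ph3] at k4
    have e1 : s.A + p + L.al - s.m ^ 2 / (s.B + q) = s.A + p - s.m ^ 2 / (s.B + q) + L.al := by ring
    have e2 : (T : ℂ) + L.be - 0 ^ 2 / (s.B + q) = T + L.be := by ring
    have e3 : L.mu - I - s.m * 0 / (s.B + q) = -I + L.mu := by ring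
    have e4 : 0 - (L.mu - I) * s.m / (s.A + p + L.al) = -I - s.m * (L.mu - I) / (s.A + p + L.al) + I := by ring
    rw [e1, e2, e3, e4] at k4
    linarith
  · intro W hW
    have hacc := N4_accG hACG (s.A + p) (s.B + q) s.m L.al L.be L.mu T W (-I) (-I) (-I) hs' hL hT hW (by simp)
      (by simp) (by simp)
    have h4 : AccS (G5 (s.A + p + L.al) (s.B + q) (T + L.be) 1 (W : ℂ) s.m (L.mu - I) (-I) 0 0 (-I) (-I))
      {0, 1, 2, 4} := hsub _ _ _ (by decide) hacc
    have hset : ({0, 1, 2, 4} : Finset ℕ) = {1, 4, 0, 2} := by decide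
    have hset2 : ({0, 1, 2, 4} : Finset ℕ) = {0, 2, 1, 4} := by decide
    have ha := h4
    have hb := h4
    rw [hset] at ha
    rw [hset2] at hb
    obtain ⟨-, a1, a2, -⟩ := hPHS _ {4, 0, 2} 1 (by decide) ha
    obtain ⟨-, b1, b2, -⟩ := hPHS _ {2, 1, 4} 0 (by decide) hb
    have a3 := hEV.2 _ 4 0 2 (by decide) (by decide) (by decide) (by simp only [sch, G5]; ring_nf)
      (by simp only [sch, G5]; try ring_nf) (by simp only [sch, G5]; try ring_nf) a1
    have b3 := hEV.2 _ 2 1 4 (by decide) (by decide) (by decide) (by simp only [sch, G5]; try ring_nf)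
      (by simp only [sch, G5]; try ring_nf) (by simp only [sch, G5]; try ring_nf) b1
    rw [a3] at a2
    rw [b3] at b2
    have hset' : (insert 1 {4, 0, 2} : Finset ℕ) = insert 0 {2, 1, 4} := by decide
    rw [hset'] at a2
    rw [b2] at a2
    simp only [sch, G5] at a2
    simp only [s1w, s2]
    have e1 : (W : ℂ) - -I * -I / (s.B + q) = W + 1 / (s.B + q) := by
      have : -I * -I = (-1 : ℂ) := by rw [neg_mul_neg, Complex.I_mul_I]
      rw [this]
      ring
    have e2 : s.A + p + L.al - s.m * s.m / (s.B + q) = s.A + p - s.m ^ 2 / (s.B + q) + L.al := by ring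
    have e3 : (T : ℂ) + L.be - -I * -I / (s.B + q) = T + 1 / (s.B + q) + L.be := by
      have : -I * -I = (-1 : ℂ) := by rw [neg_mul_neg, Complex.I_mul_I]
      rw [this]
      ring
    have e4 : (0 : ℂ) - -I * s.m / (s.B + q) = I * s.m / (s.B + q) := by ring
    have e5 : -I - -I * -I / (s.B + q) = -I + 1 / (s.B + q) := by
      have : -I * -I = (-1 : ℂ) := by rw [neg_mul_neg, Complex.I_mul_I]
      rw [this]
      ring
    have e6 : L.mu - I - s.m * -I / (s.B + q) = -I + I * s.m / (s.B + q) + L.mu := by ring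
    have f1 : (T : ℂ) + L.be - (L.mu - I) * (L.mu - I) / (s.A + p + L.al) =
        (T : ℂ) + L.be - (L.mu - I) ^ 2 / (s.A + p + L.al) := by ring
    have f2 : s.B + q - s.m * s.m / (s.A + p + L.al) = s.B + q - s.m ^ 2 / (s.A + p + L.al) := by ring
    have f3 : (W : ℂ) - 0 * 0 / (s.A + p + L.al) = W := by ring
    have f4 : -I - (L.mu - I) * s.m / (s.A + p + L.al) = -I - s.m * (L.mu - I) / (s.A + p + L.al) := by ring
    have f5 : -I - (L.mu - I) * 0 / (s.A + p + L.al) = -I := by ring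
    have f6 : -I - s.m * 0 / (s.A + p + L.al) = -I := by ring
    rw [e1, e2, e3, e4, e5, e6, f1, f2, f3, f4, f5, f6] at a2
    simp only [ph3] at a2 ⊢
    have g1 : s.A + p - s.m ^ 2 / (s.B + q) + L.al - (I * s.m / (s.B + q)) ^ 2 / (W + 1 / (s.B + q)) =
      s.A + p - s.m ^ 2 / (s.B + q) - (I * s.m / (s.B + q)) ^ 2 / (W + 1 / (s.B + q)) + L.al := by ring
    have g2 : (T : ℂ) + 1 / (s.B + q) + L.be - (-I + 1 / (s.B + q)) ^ 2 / (W + 1 / (s.B + q)) =
      T + 1 / (s.B + q) - (-I + 1 / (s.B + q)) ^ 2 / (W + 1 / (s.B + q)) + L.be := by ring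
    have g3 : -I + I * s.m / (s.B + q) + L.mu - I * s.m / (s.B + q) * (-I + 1 / (s.B + q)) / (W + 1 / (s.B + q)) =
      -I + I * s.m / (s.B + q) - I * s.m / (s.B + q) * (-I + 1 / (s.B + q)) / (W + 1 / (s.B + q)) + L.mu := by ring
    rw [g1, g2, g3] at a2
    linarith

end Pool.Agent.MO
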