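import Pool.Agent.helper34.MO.SpecB

set_option autoImplicit false

open Complex Finset

namespace Pool.Agent.MO

/-- the real quadratic form of a symmetric two by two matrix -/
noncomputable def N5_q (A B m u v : ℂ) : ℝ :=
  A.re * (u.re ^ 2 + u.im ^ 2) + B.re * (v.re ^ 2 + v.im ^ 2) + 2 * m.re * (u.re * v.re + u.im * v.im)

lemma N5_real (a b m x y : ℝ) (ha : 0 ≤ a) (hb : 0 ≤ b) (hm : m ^ 2 ≤ a * b) :
    0 ≤ a * x ^ 2 + b * y ^ 2 + 2 * m * (x * y) := by
  rcases eq_or_lt_of_le ha with h | h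
  · subst h
    have : m = 0 := by
      have : m ^ 2 ≤ 0 := by linarith
      nlinarith
    subst this
    nlinarith [sq_nonneg y]
  · have h1 : 0 ≤ a * (a * x ^ 2 + b * y ^ 2 + 2 * m * (x * y)) := by
      have h2 : a * (a * x ^ 2 + b * y ^ 2 + 2 * m * (x * y)) = (a * x + m * y) ^ 2 + (a * b - m ^ 2) * y ^ 2 := by
        ring
      rw [h2]
      have h3 : 0 ≤ a * b - m ^ 2 := by linarith
      positivity
    exact nonneg_of_mul_nonneg_right h1 h

lemma N5_real_pos (a b m x y : ℝ) (ha : 0 < a) (hm : m ^ 2 < a * b) (h : x ≠ 0 ∨ y ≠ 0) :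
    0 < a * x ^ 2 + b * y ^ 2 + 2 * m * (x * y) := by
  have h1 : 0 < a * (a * x ^ 2 + b * y ^ 2 + 2 * m * (x * y)) := by
    have h2 : a * (a * x ^ 2 + b * y ^ 2 + 2 * m * (x * y)) = (a * x + m * y) ^ 2 + (a * b - m ^ 2) * y ^ 2 := by
      ring
    rw [h2]
    have h3 : 0 < a * b - m ^ 2 := by linarith
    by_cases hy : y = 0
    · subst hy
      have hx : x ≠ 0 := by
        rcases h with h | h
        · exact h
        · exact absurd rfl h
      have : 0 < (a * x) ^ 2 := by positivity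
      nlinarith
    · have : 0 < y ^ 2 := by positivity
      have h4 := mul_pos h3 this
      nlinarith [sq_nonneg (a * x + m * y)]
  exact pos_of_mul_pos_right h1 ha.le

lemma N5_q_nonneg (A B m u v : ℂ) (h : Psd2 A B m) : 0 ≤ N5_q A B m u v := by
  have h1 := N5_real A.re B.re m.re u.re v.re h.1 h.2.1 h.2.2
  have h2 := N5_real A.re B.re m.re u.im v.im h.1 h.2.1 h.2.2
  unfold N5_q
  nlinarith

lemma N5_q_pos (A B m u v : ℂ) (h : Acc2 A B m) (huv : u ≠ 0 ∨ v ≠ 0) : 0 < N5_q A B m u v := by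
  have h0 : Psd2 A B m := ⟨h.1.le, h.2.1.le, h.2.2.le⟩
  have h1 := N5_real A.re B.re m.re u.re v.re h0.1 h0.2.1 h0.2.2
  have h2 := N5_real A.re B.re m.re u.im v.im h0.1 h0.2.1 h0.2.2
  have h3 : (u.re ≠ 0 ∨ v.re ≠ 0) ∨ (u.im ≠ 0 ∨ v.im ≠ 0) := by
    by_contra hcon
    push Not at hcon
    obtain ⟨⟨h4, h5⟩, h6, h7⟩ := hcon
    rcases huv with h8 | h8
    · exact h8 (Complex.ext h4 h6)
    · exact h8 (Complex.ext h5 h7)
  unfold N5_q
  rcases h3 with h3 | h3
  · have h4 := N5_real_pos A.re B.re m.re u.re v.re h.1 h.2.2 h3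
    nlinarith
  · have h4 := N5_real_pos A.re B.re m.re u.im v.im h.1 h.2.2 h3
    nlinarith

lemma N5_acc (A B m al be mu al' be' mu' : ℂ) (T : ℝ) (h : Acc2 A B m) (hL : Psd2 al be mu)
    (hR : Psd2 al' be' mu') (hT : 0 < T) :
    AccS (G5 (A + al) (B + be') (T + be + al') 1 1 m (mu - I) (mu' - I) 0 0 0 0) {0, 2, 1} := by
  intro x hx
  have h1 : (∑ i ∈ ({0, 2, 1} : Finset ℕ), ∑ j ∈ ({0, 2, 1} : Finset ℕ), (starRingEnd ℂ) (x i) *
      G5 (A + al) (B + be') (T + be + al') 1 1 m (mu - I) (mu' - I) 0 0 0 0 i j * x j).re =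
      N5_q A B m (x 0) (x 1) + N5_q al be mu (x 0) (x 2) + N5_q al' be' mu' (x 2) (x 1) +
      T * ((x 2).re ^ 2 + (x 2).im ^ 2) := by
    have n1 : (0 : ℕ) ∉ ({2, 1} : Finset ℕ) := by decide
    have n2 : (2 : ℕ) ∉ ({1} : Finset ℕ) := by decide
    rw [Finset.sum_insert n1, Finset.sum_insert n2, Finset.sum_singleton]
    simp only [Finset.sum_insert n1, Finset.sum_insert n2, Finset.sum_singleton, G5]
    unfold N5_q
    simp only [Complex.add_re, Complex.mul_re, Complex.mul_im, Complex.conj_re, Complex.conj_im, Complex.add_im,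
      Complex.sub_re, Complex.sub_im, Complex.I_re, Complex.I_im, Complex.ofReal_re, Complex.ofReal_im]
    ring
  rw [h1]
  have h2 := N5_q_nonneg al be mu (x 0) (x 2) hL
  have h3 := N5_q_nonneg al' be' mu' (x 2) (x 1) hR
  have h4 : 0 ≤ N5_q A B m (x 0) (x 1) := N5_q_nonneg A B m (x 0) (x 1) ⟨h.1.le, h.2.1.le, h.2.2.le⟩
  by_cases h5 : x 0 ≠ 0 ∨ x 1 ≠ 0
  · have h6 := N5_q_pos A B m (x 0) (x 1) h h5
    have h7 : 0 ≤ T * ((x 2).re ^ 2 + (x 2).im ^ 2) := by positivity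
    linarith
  · push Not at h5
    have h6 : x 2 ≠ 0 := by
      obtain ⟨i, hi, hxi⟩ := hx
      simp only [Finset.mem_insert, Finset.mem_singleton] at hi
      rcases hi with rfl | rfl | rfl
      · exact absurd h5.1 hxi
      · exact hxi
      · exact absurd h5.2 hxi
    have h7 : 0 < (x 2).re ^ 2 + (x 2).im ^ 2 := by
      have h8 := Complex.normSq_pos.mpr h6
      rw [Complex.normSq_apply] at h8
      nlinarith
    have h8 := mul_pos hT h7
    linarith

theorem N5 (hPHS : PHS_stmt) (hPHE : PHE_stmt) (hEV : EV_stmt) (hA2P : A2P_stmt) (hACG : ACG_stmt) : N5_stmt := by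
  intro s L R T hs hL hR hT
  have hacc := N5_acc s.A s.B s.m L.al L.be L.mu R.al R.be R.mu T hs hL hR hT
  have e1 := hEV.2 _ 0 2 1 (by decide) (by decide) (by decide) rfl rfl rfl hacc
  have hset : ({0, 2, 1} : Finset ℕ) = {2, 0, 1} := by decide
  have hacc' := hacc
  rw [hset] at hacc'
  have e2 := hEV.2 _ 2 0 1 (by decide) (by decide) (by decide) rfl rfl rfl hacc'
  rw [hset, e2] at e1
  simp only [G5] at e1
  -- `e1 : ph3 P a' C x y m = ph3 a' P C x m y`
  have hl : (s2 s L 0 0 T).ph + R.psi + ph2 ((s2 s L 0 0 T).A + R.al) ((s2 s L 0 0 T).B + R.be)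
      ((s2 s L 0 0 T).m + R.mu) = s.ph + L.psi + R.psi +
      ph3 (s.A + L.al) (T + L.be + R.al) (s.B + R.be) (L.mu - I) s.m (R.mu - I) := by
    simp only [s2, ph3]
    have a1 : s.A + ((0 : ℝ) : ℂ) + L.al = s.A + L.al := by simp
    have a2 : (T : ℂ) + L.be - (L.mu - I) ^ 2 / (s.A + L.al) + R.al =
      (T : ℂ) + L.be + R.al - (L.mu - I) ^ 2 / (s.A + L.al) := by ring
    have a3 : s.B + ((0 : ℝ) : ℂ) - s.m ^ 2 / (s.A + L.al) + R.be =
      s.B + R.be - s.m ^ 2 / (s.A + L.al) := by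
      rw [Complex.ofReal_zero]
      ring
    have a4 : -I - s.m * (L.mu - I) / (s.A + L.al) + R.mu =
      R.mu - I - (L.mu - I) * s.m / (s.A + L.al) := by ring
    rw [a1, a2, a3, a4]
    ring
  have hr : s.ph + (comb T L R).psi + ph2 (s.A + (comb T L R).al) (s.B + (comb T L R).be)
      (s.m + (comb T L R).mu) = s.ph + L.psi + R.psi +
      ph3 (T + L.be + R.al) (s.A + L.al) (s.B + R.be) (L.mu - I) (R.mu - I) s.m := by
    simp only [comb, pv, ph3]
    have a2 : s.A + (L.al - (L.mu - I) ^ 2 / ((T : ℂ) + L.be + R.al)) =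
      s.A + L.al - (L.mu - I) ^ 2 / ((T : ℂ) + L.be + R.al) := by ring
    have a3 : s.B + (R.be - (R.mu - I) ^ 2 / ((T : ℂ) + L.be + R.al)) =
      s.B + R.be - (R.mu - I) ^ 2 / ((T : ℂ) + L.be + R.al) := by ring
    have a4 : s.m + -((L.mu - I) * (R.mu - I)) / ((T : ℂ) + L.be + R.al) =
      s.m - (L.mu - I) * (R.mu - I) / ((T : ℂ) + L.be + R.al) := by ring
    rw [a2, a3, a4]
    ring
  rw [hl, hr, e1]

end Pool.Agent.MO
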