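import Pool.Agent.helper34.MO.SpecD

set_option autoImplicit false

open Finset

namespace Pool.Agent.MO

/-- one ordered pair -/
lemma TR2_pair (M p q : ℕ) (hp : p < M) (hq : q < M) :
    ∑ x ∈ range M, ∑ y ∈ range M, (if x = p ∧ y = q then (1 : ℝ) else 0) = 1 := by
  rw [Finset.sum_eq_single p]
  · rw [Finset.sum_eq_single q]
    · simp
    · intro y _ hy
      simp [hy]
    · intro h
      exact absurd (mem_range.mpr hq) h
  · intro x _ hx
    apply Finset.sum_eq_zero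
    intro y _
    simp [hx]
  · intro h
    exact absurd (mem_range.mpr hp) h

lemma TR2_edge (M p q : ℕ) (hp : p < M) (hq : q < M) (h : p ≠ q) :
    ∑ x ∈ range M, ∑ y ∈ range M, (if (x = p ∧ y = q) ∨ (x = q ∧ y = p) then (1 : ℝ) else 0) = 2 := by
  have h1 : ∀ x y : ℕ, (if (x = p ∧ y = q) ∨ (x = q ∧ y = p) then (1 : ℝ) else 0) =
      (if x = p ∧ y = q then (1 : ℝ) else 0) + (if x = q ∧ y = p then (1 : ℝ) else 0) := by
    intro x y
    by_cases h2 : x = p ∧ y = q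
    · have h3 : ¬ (x = q ∧ y = p) := by
        rintro ⟨h3, h4⟩
        omega
      simp [h2, h3]
      intro h4
      exact absurd h4 h
    · simp [h2]
  simp_rw [h1, Finset.sum_add_distrib]
  rw [TR2_pair M p q hp hq, TR2_pair M q p hq hp]
  norm_num

lemma TR2_node (M p q k : ℕ) (hp : p < M) (hq : q < M) (hk : k < M) (h1 : p < k) (h2 : k < q) :
    ∑ x ∈ range M, ∑ y ∈ range M, (if (x = p ∧ y = k) ∨ (x = k ∧ y = p) ∨ (x = k ∧ y = q) ∨ (x = q ∧ y = k)
      then (1 : ℝ) else 0) = 4 := by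
  have h3 : ∀ x y : ℕ, (if (x = p ∧ y = k) ∨ (x = k ∧ y = p) ∨ (x = k ∧ y = q) ∨ (x = q ∧ y = k)
      then (1 : ℝ) else 0) = (if (x = p ∧ y = k) ∨ (x = k ∧ y = p) then (1 : ℝ) else 0) +
      (if (x = k ∧ y = q) ∨ (x = q ∧ y = k) then (1 : ℝ) else 0) := by
    intro x y
    by_cases h4 : (x = p ∧ y = k) ∨ (x = k ∧ y = p)
    · have h5 : ¬ ((x = k ∧ y = q) ∨ (x = q ∧ y = k)) := by
        omega
      have h6 : (x = p ∧ y = k) ∨ (x = k ∧ y = p) ∨ (x = k ∧ y = q) ∨ (x = q ∧ y = k) := by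
        omega
      rw [if_pos h4, if_neg h5, if_pos h6, add_zero]
    · by_cases h5 : (x = k ∧ y = q) ∨ (x = q ∧ y = k)
      · have h6 : (x = p ∧ y = k) ∨ (x = k ∧ y = p) ∨ (x = k ∧ y = q) ∨ (x = q ∧ y = k) := by
          omega
        rw [if_neg h4, if_pos h5, if_pos h6, zero_add]
      · have h6 : ¬ ((x = p ∧ y = k) ∨ (x = k ∧ y = p) ∨ (x = k ∧ y = q) ∨ (x = q ∧ y = k)) := by
          omega
        rw [if_neg h4, if_neg h5, if_neg h6, zero_add]
  simp_rw [h3, Finset.sum_add_distrib]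
  rw [TR2_edge M p k hp hk (by omega), TR2_edge M k q hk hq (by omega)]
  norm_num

lemma TR2_AT : ∀ (τ : Tr) (i M : ℕ), i + τ.sz + 1 < M →
    ∑ x ∈ range M, ∑ y ∈ range M, AT τ i x y = 4 * (τ.sz : ℝ)
  | .e, i, M, _ => by simp [AT, Tr.sz]
  | .nd l r, i, M, h => by
    have h' : i + (l.sz + r.sz + 1) + 1 < M := h
    have hl := TR2_AT l i M (by omega)
    have hr := TR2_AT r (i + l.sz + 1) M (by omega)
    have hn := TR2_node M i (i + l.sz + 1 + r.sz + 1) (i + l.sz + 1) (by omega) (by omega) (by omega)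
      (by omega) (by omega)
    simp only [AT, Finset.sum_add_distrib]
    rw [hl, hr, hn]
    simp only [Tr.sz]
    push_cast
    ring

theorem TR2 (hATS : ATS_stmt) : TR2_stmt := by
  intro τ
  have h1 : ∀ x y : ℕ, AG τ x y ^ 2 = AG τ x y := by
    intro x y
    rcases (hATS.2 τ x y).2.1 with h | h <;> rw [h] <;> norm_num
  simp_rw [h1]
  simp only [AG, Finset.sum_add_distrib]
  rw [TR2_AT τ 0 (τ.sz + 2) (by omega), TR2_edge (τ.sz + 2) 0 (τ.sz + 1) (by omega) (by omega) (by omega)]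
  ring

end Pool.Agent.MO
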