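import Pool.Agent.helper34.MO.SpecA

set_option autoImplicit false

open Complex Finset

namespace Pool.Agent.MO

/-- determinant of an affine function of a matrix -/
lemma PHP_prod {n : Type} [Fintype n] [DecidableEq n] (M : Matrix n n ℂ) (a b : ℂ) :
    Matrix.det (a • (1 : Matrix n n ℂ) + b • M) = (M.charpoly.roots.map (fun μ => a + b * μ)).prod := by
  have hcard : M.charpoly.roots.card = Fintype.card n := by
    rw [IsAlgClosed.card_roots_eq_natDegree, Matrix.charpoly_natDegree_eq_dim]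
  by_cases hb : b = 0
  · subst hb
    simp [hcard]
  · have h1 : a • (1 : Matrix n n ℂ) + b • M = (-b) • (Matrix.scalar n (-(a / b)) - M) := by
      rw [Matrix.scalar_apply, ← Matrix.smul_one_eq_diagonal, smul_sub, smul_smul]
      have : -b * -(a / b) = a := by field_simp
      rw [this, neg_smul, sub_neg_eq_add]
    have h2 : (-b) ^ M.charpoly.roots.card = (M.charpoly.roots.map (fun _ => -b)).prod := by
      rw [Multiset.map_const', Multiset.prod_replicate]
    rw [h1, Matrix.det_smul, ← Matrix.eval_charpoly,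
      (IsAlgClosed.splits M.charpoly).eval_eq_prod_roots_of_monic (Matrix.charpoly_monic M), ← hcard,
      h2, ← Multiset.prod_map_mul]
    apply congrArg
    apply Multiset.map_congr rfl
    intro μ _
    field_simp
    ring

/-- elimination of all the indices of `S` -/
lemma PHP_det (F : ℕ → ℕ → ℂ) (S : Finset ℕ) (k : ℕ) (hk : k ∉ S) (hS : detS F S ≠ 0) :
    ∃ z : ℕ → ℂ, z k = 1 ∧ (∀ i ∈ S, ∑ j ∈ insert k S, F i j * z j = 0) ∧
      detS F (insert k S) = detS F S * ∑ j ∈ insert k S, F k j * z j := by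
  classical
  have hdet : (mS F S).det ≠ 0 := hS
  let _ : Invertible (mS F S) := Matrix.invertibleOfIsUnitDet _ (isUnit_iff_ne_zero.mpr hdet)
  let b : S → ℂ := fun j => F j.1 k
  let x : S → ℂ := -((⅟(mS F S)).mulVec b)
  let z : ℕ → ℂ := fun n => if h : n ∈ S then x ⟨n, h⟩ else 1
  have hzk : z k = 1 := by simp only [z, dif_neg hk]
  have hz : ∀ j : S, z j.1 = x j := fun j => by simp only [z, dif_pos j.2]
  have hAx : (mS F S).mulVec x = -b := by
    simp only [x]
    rw [Matrix.mulVec_neg, Matrix.mulVec_mulVec, mul_invOf_self, Matrix.one_mulVec]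
  refine ⟨z, hzk, ?_, ?_⟩
  · intro i hi
    rw [Finset.sum_insert hk, hzk, mul_one, ← Finset.sum_coe_sort S (fun j => F i j * z j)]
    have h1 := congrFun hAx ⟨i, hi⟩
    have h2 : ∑ j : S, F i j.1 * z j.1 = ((mS F S).mulVec x) ⟨i, hi⟩ := by
      simp only [Matrix.mulVec, dotProduct, mS, Matrix.of_apply]
      exact Finset.sum_congr rfl (fun j _ => by rw [hz j])
    rw [h2, h1]
    simp [b]
  · let e : (insert k S : Finset ℕ) ≃ S ⊕ Unit :=
      (Finset.subtypeInsertEquivOption hk).trans (Equiv.optionEquivSumPUnit _)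
    let B : Matrix S Unit ℂ := Matrix.of fun i _ => F i.1 k
    let C : Matrix Unit S ℂ := Matrix.of fun _ j => F k j.1
    let D : Matrix Unit Unit ℂ := Matrix.of fun _ _ => F k k
    have h1 : (mS F (insert k S)).submatrix e.symm e.symm = Matrix.fromBlocks (mS F S) B C D := by
      ext u v
      rcases u with u | u <;> rcases v with v | v <;> rfl
    have h2 : (mS F (insert k S)).det = (Matrix.fromBlocks (mS F S) B C D).det := by
      rw [← h1, Matrix.det_submatrix_equiv_self]
    have h4 : (D - C * ⅟(mS F S) * B).det = (D - C * ⅟(mS F S) * B) default default := Matrix.det_unique _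
    unfold detS
    rw [h2, Matrix.det_fromBlocks₁₁, h4]
    congr 1
    rw [Finset.sum_insert hk, hzk, mul_one, ← Finset.sum_coe_sort S (fun j => F k j * z j), Matrix.sub_apply]
    have h3 : (C * ⅟(mS F S) * B) default default = -∑ j : S, F k j.1 * z j.1 := by
      rw [Matrix.mul_assoc, Matrix.mul_apply, ← Finset.sum_neg_distrib]
      apply Finset.sum_congr rfl
      intro j _
      rw [hz j]
      simp only [C, x, Matrix.of_apply, Pi.neg_apply, mul_neg, neg_neg]
      rfl
    rw [h3]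
    simp only [D, Matrix.of_apply]
    ring

lemma PHP_pivot (F : ℕ → ℕ → ℂ) (S : Finset ℕ) (k : ℕ) (hk : k ∉ S) (hacc : AccS F (insert k S))
    (hS : detS F S ≠ 0) : 0 < (detS F (insert k S) / detS F S).re := by
  obtain ⟨z, hzk, hz, hd⟩ := PHP_det F S k hk hS
  have h1 := hacc z ⟨k, Finset.mem_insert_self k S, by rw [hzk]; exact one_ne_zero⟩
  have h2 : ∀ i, ∑ j ∈ insert k S, (starRingEnd ℂ) (z i) * F i j * z j =
      (starRingEnd ℂ) (z i) * ∑ j ∈ insert k S, F i j * z j := by
    intro i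
    rw [Finset.mul_sum]
    exact Finset.sum_congr rfl (fun j _ => by ring)
  rw [Finset.sum_insert hk, h2 k, hzk, map_one, one_mul, Finset.sum_eq_zero (s := S), add_zero] at h1
  · rw [hd, mul_div_cancel_left₀ _ hS]
    exact h1
  · intro i hi
    rw [h2 i, hz i hi, mul_zero]

/-- the identity matrix -/
noncomputable def PHP_one : ℕ → ℕ → ℂ := fun x y => if x = y then 1 else 0

lemma PHP_acc (F : ℕ → ℕ → ℂ) (S : Finset ℕ) (hacc : AccS F S) (s : ℝ) (hs : s ∈ Set.Icc (0 : ℝ) 1) :
    AccS (mix PHP_one F s) S := by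
  intro x hx
  have h1 := hacc x hx
  have h2 : ∑ i ∈ S, ∑ j ∈ S, (starRingEnd ℂ) (x i) * mix PHP_one F s i j * x j =
      ((1 - s : ℝ) : ℂ) * ((∑ i ∈ S, Complex.normSq (x i) : ℝ) : ℂ) +
      (s : ℂ) * ∑ i ∈ S, ∑ j ∈ S, (starRingEnd ℂ) (x i) * F i j * x j := by
    rw [Complex.ofReal_sum, Finset.mul_sum, Finset.mul_sum, ← Finset.sum_add_distrib]
    apply Finset.sum_congr rfl
    intro i hi
    have h3 : ∑ j ∈ S, (starRingEnd ℂ) (x i) * mix PHP_one F s i j * x j =
        ∑ j ∈ S, (if i = j then (1 - (s : ℂ)) * ((starRingEnd ℂ) (x i) * x j) else 0) +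
        ∑ j ∈ S, (s : ℂ) * ((starRingEnd ℂ) (x i) * F i j * x j) := by
      rw [← Finset.sum_add_distrib]
      apply Finset.sum_congr rfl
      intro j _
      simp only [mix, PHP_one]
      split_ifs <;> ring
    rw [h3, Finset.sum_ite_eq, if_pos hi, ← Finset.mul_sum]
    congr 1
    rw [mul_comm ((starRingEnd ℂ) (x i)), Complex.mul_conj]
    push_cast
    ring
  rw [h2, Complex.add_re, Complex.re_ofReal_mul, Complex.ofReal_re, Complex.re_ofReal_mul]
  have h4 : 0 < ∑ i ∈ S, Complex.normSq (x i) := by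
    obtain ⟨i, hi, hxi⟩ := hx
    exact Finset.sum_pos' (fun j _ => Complex.normSq_nonneg _) ⟨i, hi, Complex.normSq_pos.mpr hxi⟩
  rcases eq_or_lt_of_le hs.1 with h5 | h5
  · rw [← h5]
    linarith
  · have h6 := mul_pos h5 h1
    have h7 : 0 ≤ (1 - s) * ∑ i ∈ S, Complex.normSq (x i) := mul_nonneg (by linarith [hs.2]) h4.le
    linarith

lemma PHP_detmix (F : ℕ → ℕ → ℂ) (S : Finset ℕ) (s : ℝ) :
    detS (mix PHP_one F s) S = ((mS F S).charpoly.roots.map (fun μ => (1 - (s : ℂ)) + (s : ℂ) * μ)).prod := by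
  rw [← PHP_prod]
  unfold detS
  congr 1
  ext i j
  simp only [mS, mix, PHP_one, Matrix.of_apply, Matrix.add_apply, Matrix.smul_apply, smul_eq_mul, Matrix.one_apply,
    Subtype.ext_iff]

lemma PHP_argprod (L : Multiset ℂ) : L.prod = (‖L.prod‖ : ℂ) * exp ((((L.map Complex.arg).sum : ℝ) : ℂ) * I) := by
  induction L using Multiset.induction_on with
  | empty => simp
  | cons a L ih =>
    rw [Multiset.prod_cons, Multiset.map_cons, Multiset.sum_cons, norm_mul]
    conv_lhs => rw [ih, ← Complex.norm_mul_exp_arg_mul_I a]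
    push_cast
    rw [add_mul, Complex.exp_add]
    ring

lemma PHP_re (s : ℝ) (hs : s ∈ Set.Icc (0 : ℝ) 1) (μ : ℂ) (h : 0 < μ.re) : 0 < ((1 - (s : ℂ)) + (s : ℂ) * μ).re := by
  have e : ((1 - (s : ℂ)) + (s : ℂ) * μ).re = (1 - s) + s * μ.re := by simp
  rw [e]
  rcases eq_or_lt_of_le hs.1 with h5 | h5
  · rw [← h5]
    linarith
  · have h6 := mul_pos h5 h
    linarith [hs.2]

/-- the phase along the path -/
noncomputable def PHP_G (L : Multiset ℂ) (s : ℝ) : ℝ := (L.map fun μ => Complex.arg ((1 - (s : ℂ)) + (s : ℂ) * μ)).sum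

lemma PHP_Gcont (L : Multiset ℂ) (hL : ∀ μ ∈ L, 0 < μ.re) : ContinuousOn (PHP_G L) (Set.Icc 0 1) := by
  induction L using Multiset.induction_on with
  | empty =>
    have : PHP_G 0 = fun _ => 0 := by
      funext s
      simp [PHP_G]
    rw [this]
    exact continuousOn_const
  | cons a L ih =>
    have h1 := ih (fun μ hμ => hL μ (Multiset.mem_cons_of_mem hμ))
    have h2 : PHP_G (a ::ₘ L) = fun s : ℝ => Complex.arg ((1 - (s : ℂ)) + (s : ℂ) * a) + PHP_G L s := by
      funext s
      simp [PHP_G]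
    rw [h2]
    refine ContinuousOn.add ?_ h1
    intro s hs
    have h3 : ContinuousAt (fun s : ℝ => (1 - (s : ℂ)) + (s : ℂ) * a) s := by
      apply Continuous.continuousAt
      fun_prop
    have h4 : (1 - (s : ℂ)) + (s : ℂ) * a ∈ Complex.slitPlane :=
      Or.inl (PHP_re s hs a (hL a (Multiset.mem_cons_self a L)))
    have h5 : ContinuousAt (fun s : ℝ => Complex.arg ((1 - (s : ℂ)) + (s : ℂ) * a)) s :=
      ContinuousAt.comp (f := fun s : ℝ => (1 - (s : ℂ)) + (s : ℂ) * a) (g := Complex.arg)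
        (Complex.continuousAt_arg h4) h3
    exact h5.continuousWithinAt

theorem PHP (hPHD : PHD_stmt) (hPHE : PHE_stmt) : PHP_stmt := by
  intro F S k hk hacc
  have hsub : ∀ s ∈ Set.Icc (0 : ℝ) 1, AccS (mix PHP_one F s) (insert k S) := fun s hs => PHP_acc F _ hacc s hs
  have hsub' : ∀ s ∈ Set.Icc (0 : ℝ) 1, AccS (mix PHP_one F s) S := fun s hs =>
    hPHE.2.2.2.2 _ _ _ (Finset.subset_insert k S) (hsub s hs)
  have haccS : AccS F S := hPHE.2.2.2.2 _ _ _ (Finset.subset_insert k S) hacc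
  obtain ⟨hS0, -, hS2⟩ := hPHD F S haccS
  obtain ⟨hT0, -, hT2⟩ := hPHD F (insert k S) hacc
  refine ⟨hS0, PHP_pivot F S k hk hacc hS0, ?_⟩
  -- the two determinants along the path
  have hd1 : ∀ s ∈ Set.Icc (0 : ℝ) 1, detS (mix PHP_one F s) S ≠ 0 := fun s hs => (hPHD _ _ (hsub' s hs)).1
  have hd2 : ∀ s ∈ Set.Icc (0 : ℝ) 1, detS (mix PHP_one F s) (insert k S) ≠ 0 := fun s hs => (hPHD _ _ (hsub s hs)).1
  have hr : ∀ s ∈ Set.Icc (0 : ℝ) 1,
      0 < (detS (mix PHP_one F s) (insert k S) / detS (mix PHP_one F s) S).re := fun s hs =>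
    PHP_pivot _ S k hk (hsub s hs) (hd1 s hs)
  have hg1 : ∀ s : ℝ, detS (mix PHP_one F s) S =
      (‖detS (mix PHP_one F s) S‖ : ℂ) * exp (((PHP_G (mS F S).charpoly.roots s : ℝ) : ℂ) * I) := by
    intro s
    have h1 := PHP_argprod ((mS F S).charpoly.roots.map (fun μ => (1 - (s : ℂ)) + (s : ℂ) * μ))
    rw [Multiset.map_map, ← PHP_detmix] at h1
    exact h1
  have hg2 : ∀ s : ℝ, detS (mix PHP_one F s) (insert k S) =
      (‖detS (mix PHP_one F s) (insert k S)‖ : ℂ) *
        exp (((PHP_G (mS F (insert k S)).charpoly.roots s : ℝ) : ℂ) * I) := by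
    intro s
    have h1 := PHP_argprod ((mS F (insert k S)).charpoly.roots.map (fun μ => (1 - (s : ℂ)) + (s : ℂ) * μ))
    rw [Multiset.map_map, ← PHP_detmix] at h1
    exact h1
  have hcd : ∀ U : Finset ℕ, Continuous fun s : ℝ => detS (mix PHP_one F s) U := by
    intro U
    have h1 : (fun s : ℝ => detS (mix PHP_one F s) U) = fun s : ℝ =>
        ((mS F U).charpoly.roots.map (fun μ => (1 - (s : ℂ)) + (s : ℂ) * μ)).prod := by
      funext s
      exact PHP_detmix F U s
    rw [h1]
    apply continuous_multiset_prod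
    intro μ _
    fun_prop
  let h : ℝ → ℝ := fun s => PHP_G (mS F (insert k S)).charpoly.roots s - PHP_G (mS F S).charpoly.roots s -
    arg (detS (mix PHP_one F s) (insert k S) / detS (mix PHP_one F s) S)
  have hcont : ContinuousOn h (Set.Icc 0 1) := by
    refine ((PHP_Gcont _ hT2).sub (PHP_Gcont _ hS2)).sub ?_
    intro s hs
    have h3 : ContinuousAt (fun s : ℝ => detS (mix PHP_one F s) (insert k S) / detS (mix PHP_one F s) S) s :=
      ((hcd (insert k S)).continuousAt).div ((hcd S).continuousAt) (hd1 s hs)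
    have h5 : ContinuousAt (fun s : ℝ => Complex.arg (detS (mix PHP_one F s) (insert k S) /
        detS (mix PHP_one F s) S)) s :=
      ContinuousAt.comp (f := fun s : ℝ => detS (mix PHP_one F s) (insert k S) / detS (mix PHP_one F s) S)
        (g := Complex.arg) (Complex.continuousAt_arg (Or.inl (hr s hs))) h3
    exact h5.continuousWithinAt
  have hexp : ∀ s ∈ Set.Icc (0 : ℝ) 1, exp ((h s : ℂ) * I) = 1 := by
    intro s hs
    have e1 := hg1 s
    have e2 := hg2 s
    have e3 := Complex.norm_mul_exp_arg_mul_I (detS (mix PHP_one F s) (insert k S) / detS (mix PHP_one F s) S)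
    have n1 := norm_ne_zero_iff.mpr (hd1 s hs)
    have n2 := norm_ne_zero_iff.mpr (hd2 s hs)
    have m1 : (‖detS (mix PHP_one F s) S‖ : ℂ) ≠ 0 := Complex.ofReal_ne_zero.mpr n1
    have m2 : (‖detS (mix PHP_one F s) (insert k S)‖ : ℂ) ≠ 0 := Complex.ofReal_ne_zero.mpr n2
    have z1 := hd1 s hs
    have z2 := hd2 s hs
    simp only [h]
    push_cast
    rw [sub_mul, sub_mul, Complex.exp_sub, Complex.exp_sub]
    rw [norm_div] at e3
    push_cast at e3
    have x1 := Complex.exp_ne_zero (((PHP_G (mS F S).charpoly.roots s : ℝ) : ℂ) * I)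
    have x2 := Complex.exp_ne_zero (((arg (detS (mix PHP_one F s) (insert k S) / detS (mix PHP_one F s) S) : ℝ) : ℂ) * I)
    rw [div_div, div_eq_one_iff_eq (mul_ne_zero x1 x2)]
    apply mul_left_cancel₀ m2
    rw [← e2]
    generalize exp (((arg (detS (mix PHP_one F s) (insert k S) / detS (mix PHP_one F s) S) : ℝ) : ℂ) * I) = u2 at *
    generalize exp (((PHP_G (mS F S).charpoly.roots s : ℝ) : ℂ) * I) = u1 at *
    have e5 : detS (mix PHP_one F s) (insert k S) = detS (mix PHP_one F s) S *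
        ((‖detS (mix PHP_one F s) (insert k S)‖ : ℂ) / (‖detS (mix PHP_one F s) S‖ : ℂ) * u2) := by
      rw [e3]
      field_simp
    calc detS (mix PHP_one F s) (insert k S) = detS (mix PHP_one F s) S *
        ((‖detS (mix PHP_one F s) (insert k S)‖ : ℂ) / (‖detS (mix PHP_one F s) S‖ : ℂ) * u2) := e5
      _ = (‖detS (mix PHP_one F s) S‖ : ℂ) * u1 *
        ((‖detS (mix PHP_one F s) (insert k S)‖ : ℂ) / (‖detS (mix PHP_one F s) S‖ : ℂ) * u2) := by rw [← e1]
      _ = (‖detS (mix PHP_one F s) (insert k S)‖ : ℂ) * (u1 * u2) := by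
        field_simp
  have h0 : h 0 = 0 := by
    have a1 : ∀ U : Finset ℕ, detS (mix PHP_one F 0) U = 1 := by
      intro U
      rw [PHP_detmix]
      simp
    have a2 : ∀ L : Multiset ℂ, PHP_G L 0 = 0 := by
      intro L
      simp [PHP_G]
    simp only [h]
    rw [a1, a1, a2, a2]
    simp
  have h1 : h 1 = phS F (insert k S) - phS F S - arg (detS F (insert k S) / detS F S) := by
    have a1 : mix PHP_one F 1 = F := by
      funext x y
      simp [mix]
    have a2 : ∀ U : Finset ℕ, PHP_G (mS F U).charpoly.roots 1 = phS F U := by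
      intro U
      simp [PHP_G, phS]
    simp only [h]
    rw [a1, a2, a2]
  have hne : exp ((Real.pi : ℂ) * I) ≠ 1 := by
    rw [Complex.exp_pi_mul_I]
    norm_num
  have hne' : exp (((-Real.pi : ℝ) : ℂ) * I) ≠ 1 := by
    push_cast
    rw [neg_mul, Complex.exp_neg, Complex.exp_pi_mul_I]
    norm_num
  have hfin : h 1 = 0 := by
    obtain ⟨n, hn⟩ := Complex.exp_eq_one_iff.mp (hexp 1 ⟨zero_le_one, le_rfl⟩)
    have hn2 : h 1 = n * (2 * Real.pi) := by
      have h2 : (h 1 : ℂ) = n * (2 * Real.pi) := by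
        apply mul_right_cancel₀ Complex.I_ne_zero
        rw [hn]
        ring
      exact_mod_cast h2
    have hpi := Real.pi_pos
    rcases lt_trichotomy n 0 with hn3 | hn3 | hn3
    · exfalso
      have hn4 : (n : ℝ) ≤ -1 := by exact_mod_cast (by omega : n ≤ -1)
      have h2 : h 1 ≤ -Real.pi := by
        rw [hn2]
        nlinarith
      obtain ⟨s, hs, hs2⟩ := intermediate_value_Icc' (zero_le_one) hcont
        (show -Real.pi ∈ Set.Icc (h 1) (h 0) from ⟨h2, by rw [h0]; linarith⟩)
      have h3 := hexp s hs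
      rw [hs2] at h3
      exact hne' h3
    · rw [hn2, hn3]
      simp
    · exfalso
      have hn4 : (1 : ℝ) ≤ n := by exact_mod_cast (by omega : 1 ≤ n)
      have h2 : Real.pi ≤ h 1 := by
        rw [hn2]
        nlinarith
      obtain ⟨s, hs, hs2⟩ := intermediate_value_Icc (zero_le_one) hcont
        (show Real.pi ∈ Set.Icc (h 0) (h 1) from ⟨by rw [h0]; linarith, h2⟩)
      have h3 := hexp s hs
      rw [hs2] at h3
      exact hne h3
  rw [h1] at hfin
  linarith

end Pool.Agent.MO
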